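import Pool.Agent.H66.L.T64922ed1.X183.PC.Main2

/-!
# Perturbations by several flows
-/

set_option autoImplicit false
set_option linter.unusedSectionVars false

open scoped Manifold ContDiff Topology
open Filter Set Metric

universe u

namespace Pool.Agent.X183.QP

open Pool.Agent.H718R2.G Pool.Agent.TH290.CL Pool.Agent.TH80.CLX Pool.Agent.TH80.OMS
open Pool.Agent.W564.SC (IsFam)

/-- the composition of the flows `ψ 0, …, ψ (j - 1)` for the times `ρ · v i` -/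
def cps {N : Type*} (ψ : ℕ → ℝ → N → N) (ρ : N → ℝ) (v : ℕ → ℝ) : ℕ → N → N
  | 0, y => y
  | j + 1, y => ψ j (ρ (cps ψ ρ v j y) * v j) (cps ψ ρ v j y)

theorem cps_congr {N : Type*} (ψ : ℕ → ℝ → N → N) (ρ : N → ℝ) {v v' : ℕ → ℝ} {j : ℕ}
    (h : ∀ i < j, v i = v' i) (y : N) : cps ψ ρ v j y = cps ψ ρ v' j y := by
  induction j with
  | zero => rfl
  | succ j ih =>
    have h1 := ih fun i hi => h i (by omega)
    show ψ j (ρ (cps ψ ρ v j y) * v j) (cps ψ ρ v j y) =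
      ψ j (ρ (cps ψ ρ v' j y) * v' j) (cps ψ ρ v' j y)
    rw [h1, h j (by omega)]

variable {n : ℕ} {N : Type u} [TopologicalSpace N] [T2Space N] [CompactSpace N]
  [ChartedSpace (V n) N] [IsManifold (𝓡 n) ∞ N]

theorem fam_trans {r : ℕ∞} {P : Type} [NormedAddCommGroup P] [NormedSpace ℝ P]
    {A B : P → DiffM n N r} (hA : IsFam n N r A) (hB : IsFam n N r B) :
    IsFam n N r (fun s => (A s).trans (B s)) := by
  intro y
  have h1 : ContMDiffAt (𝓘(ℝ, P).prod (𝓡 n)) (𝓘(ℝ, P).prod (𝓡 n)) r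
      (fun q : P × N => ((q.1, A q.1 q.2) : P × N)) ((0 : P), y) :=
    contMDiffAt_fst.prodMk (hA y)
  exact ContMDiffAt.comp (g := fun q : P × N => B q.1 q.2)
    (f := fun q : P × N => ((q.1, A q.1 q.2) : P × N)) ((0 : P), y) (hB (A 0 y)) h1

theorem fam_lin {r : ℕ∞} {P Q : Type} [NormedAddCommGroup P] [NormedSpace ℝ P]
    [NormedAddCommGroup Q] [NormedSpace ℝ Q]
    {A : Q → DiffM n N r} (hA : IsFam n N r A) (l : P →L[ℝ] Q) :
    IsFam n N r (fun s => A (l s)) := by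
  intro y
  have h0 : ContMDiffAt (𝓘(ℝ, P).prod (𝓡 n)) 𝓘(ℝ, Q) r
      (fun q : P × N => l q.1) ((0 : P), y) :=
    (l.contDiff.contMDiff.comp contMDiff_fst).contMDiffAt
  have h1 : ContMDiffAt (𝓘(ℝ, P).prod (𝓡 n)) (𝓘(ℝ, Q).prod (𝓡 n)) r
      (fun q : P × N => ((l q.1, q.2) : Q × N)) ((0 : P), y) :=
    h0.prodMk contMDiffAt_snd
  refine ContMDiffAt.comp (g := fun q : Q × N => A q.1 q.2)
    (f := fun q : P × N => ((l q.1, q.2) : Q × N)) ((0 : P), y) ?_ h1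
  show ContMDiffAt _ _ _ _ ((l 0 : Q), y)
  rw [map_zero]
  exact hA y

theorem fam_const {r : ℕ∞} {P : Type} [NormedAddCommGroup P] [NormedSpace ℝ P]
    (G : DiffM n N r) : IsFam n N r (fun _ : P => G) := fun _ =>
  (G.contMDiff.comp contMDiff_snd).contMDiffAt

/-- the coordinate `i` as a map into `V 1` -/
noncomputable def crd (k : ℕ) (j : ℕ) : V k →L[ℝ] V 1 :=
  LinearMap.toContinuousLinearMap
    { toFun := fun s => EuclideanSpace.single (0 : Fin 1) (if h : j < k then s ⟨j, h⟩ else 0)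
      map_add' := fun s t => by
        ext i
        have hi : i = 0 := Subsingleton.elim _ _
        subst hi
        by_cases h : j < k
        · simp [h]
        · simp [h]
      map_smul' := fun a s => by
        ext i
        have hi : i = 0 := Subsingleton.elim _ _
        subst hi
        by_cases h : j < k
        · simp [h]
        · simp [h] }

theorem crd_apply (k j : ℕ) (s : V k) :
    crd k j s = EuclideanSpace.single (0 : Fin 1) (if h : j < k then s ⟨j, h⟩ else 0) := rfl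

/-- the extension of a vector by zero -/
noncomputable def ext {k : ℕ} (s : V k) : ℕ → ℝ := fun j => if h : j < k then s ⟨j, h⟩ else 0

theorem one_fam (r : ℕ∞) {ψ : ℝ → N → N} (hψ : IsFlow n N ψ)
    {ρ : N → ℝ} (hρ : ContMDiff (𝓡 n) 𝓘(ℝ, ℝ) ∞ ρ) :
    ∃ (H : V 1 → DiffM n N r) (κ : ℝ), 0 < κ ∧ H 0 = Diffeomorph.refl (𝓡 n) N r ∧ IsFam n N r H ∧
      ∀ s, ‖s‖ < κ → ∀ y, H s y = ψ (ρ y * s 0) y := by
  have hA : ContMDiff ((𝓡 1).prod (𝓡 n)) (𝓡 n) ∞ (fun p : V 1 × N => ψ (p.1 0) p.2) := by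
    have h1 : ContMDiff ((𝓡 1).prod (𝓡 n)) (𝓘(ℝ, ℝ).prod (𝓡 n)) ∞
        (fun p : V 1 × N => ((p.1 0, p.2) : ℝ × N)) := by
      refine ContMDiff.prodMk ?_ contMDiff_snd
      have h2 : ContDiff ℝ ∞ (fun v : V 1 => v 0) := by fun_prop
      exact h2.contMDiff.comp contMDiff_fst
    exact hψ.smooth.comp h1
  obtain ⟨H, κ, hκ, hH0, hfam, hH⟩ := act_fam (A := fun (v : V 1) y => ψ (v 0) y) hA hρ
    (fun y => hψ.zero y) (fun s t y => hψ.add _ _ y) r (Diffeomorph.refl (𝓡 n) N r)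
  refine ⟨H, κ, hκ, hH0, hfam, fun s hs y => ?_⟩
  rw [hH s hs y]
  rfl

theorem cps_fam (r : ℕ∞) {ψ : ℕ → ℝ → N → N} (hψ : ∀ i, IsFlow n N (ψ i))
    {ρ : N → ℝ} (hρ : ContMDiff (𝓡 n) 𝓘(ℝ, ℝ) ∞ ρ) (k j : ℕ) :
    ∃ (H : V k → DiffM n N r) (κ : ℝ), 0 < κ ∧ H 0 = Diffeomorph.refl (𝓡 n) N r ∧ IsFam n N r H ∧
      ∀ s, ‖s‖ < κ → ∀ y, H s y = cps ψ ρ (ext s) j y := by
  induction j with
  | zero =>
    exact ⟨fun _ => Diffeomorph.refl (𝓡 n) N r, 1, one_pos, rfl, fam_const _, fun _ _ _ => rfl⟩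
  | succ j ih =>
    obtain ⟨A, κ, hκ, hA0, hA, hA1⟩ := ih
    obtain ⟨B, κ', hκ', hB0, hB, hB1⟩ := one_fam (n := n) (N := N) r (hψ j) hρ
    have hc : Continuous fun s : V k => ‖crd k j s‖ := (crd k j).continuous.norm
    obtain ⟨κ'', hκ'', hs''⟩ : ∃ κ'' : ℝ, 0 < κ'' ∧ ∀ s : V k, ‖s‖ < κ'' → ‖crd k j s‖ < κ' := by
      have h1 : {s : V k | ‖crd k j s‖ < κ'} ∈ 𝓝 (0 : V k) :=
        (isOpen_lt hc continuous_const).mem_nhds (by
          show ‖crd k j 0‖ < κ'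
          rw [map_zero, norm_zero]
          exact hκ')
      obtain ⟨δ, hδ, h2⟩ := Metric.mem_nhds_iff.1 h1
      exact ⟨δ, hδ, fun s hs => h2 (by rw [mem_ball, dist_zero_right]; exact hs)⟩
    refine ⟨fun s => (A s).trans (B (crd k j s)), min κ κ'', lt_min hκ hκ'', ?_,
      fam_trans hA (fam_lin hB (crd k j)), fun s hs y => ?_⟩
    · simp only [map_zero, hA0, hB0]
      ext y
      rfl
    · show B (crd k j s) (A s y) = _
      rw [hB1 _ (hs'' s (hs.trans_le (min_le_right _ _))), hA1 s (hs.trans_le (min_le_left _ _))]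
      have h3 : (crd k j s) 0 = ext s j := by
        rw [crd_apply]
        simp [ext]
      rw [h3]
      rfl

/-- **Perturbations by several flows.** -/
theorem perturbK {r : ℕ∞} (hr : 1 ≤ r) (F : DiffM n N r) {ψ : ℕ → ℝ → N → N}
    (hψ : ∀ i, IsFlow n N (ψ i)) {ρ : N → ℝ} (hρ : ContMDiff (𝓡 n) 𝓘(ℝ, ℝ) ∞ ρ) (k : ℕ) (z : N)
    (U : Set (DiffM n N r)) (hU : IsOpen[strongTop n N r] U) (hFU : F ∈ U) :
    ∃ κ : ℝ, 0 < κ ∧ ∀ v : ℕ → ℝ, (∀ i < k, |v i| < κ) →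
      ∃ G ∈ U, ∀ y, G y = F (cps ψ ρ v k y) := by
  obtain ⟨A, κ, hκ, hA0, hA, hA1⟩ := cps_fam (n := n) (N := N) r hψ hρ k k
  obtain ⟨κ', hκ', hmem⟩ := fam_mem r hr (fun s => (A s).trans F) (fam_trans hA (fam_const F)) z U
    hU (by
      have : (A 0).trans F = F := by
        rw [hA0]
        ext y
        rfl
      rw [this]
      exact hFU)
  have hc : Continuous fun x : Fin k → ℝ => ‖((EuclideanSpace.equiv (Fin k) ℝ).symm x : V k)‖ :=
    (EuclideanSpace.equiv (Fin k) ℝ).symm.continuous.norm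
  obtain ⟨δ, hδ, hs⟩ : ∃ δ : ℝ, 0 < δ ∧ ∀ x : Fin k → ℝ, ‖x‖ < δ →
      ‖((EuclideanSpace.equiv (Fin k) ℝ).symm x : V k)‖ < min κ κ' := by
    have h1 : {x : Fin k → ℝ | ‖((EuclideanSpace.equiv (Fin k) ℝ).symm x : V k)‖ < min κ κ'} ∈
        𝓝 (0 : Fin k → ℝ) :=
      (isOpen_lt hc continuous_const).mem_nhds (by
        show ‖((EuclideanSpace.equiv (Fin k) ℝ).symm 0 : V k)‖ < min κ κ'
        rw [map_zero, norm_zero]
        exact lt_min hκ hκ')
    obtain ⟨δ, hδ, h2⟩ := Metric.mem_nhds_iff.1 h1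
    exact ⟨δ, hδ, fun s hs => h2 (by rw [mem_ball, dist_zero_right]; exact hs)⟩
  refine ⟨δ, hδ, fun v hv => ?_⟩
  have h1 : ‖(fun i : Fin k => v i)‖ < δ := by
    rw [pi_norm_lt_iff hδ]
    intro i
    rw [Real.norm_eq_abs]
    exact hv i i.2
  set s : V k := (EuclideanSpace.equiv (Fin k) ℝ).symm fun i => v i with hsd
  have h2 := hs _ h1
  rw [← hsd] at h2
  refine ⟨(A s).trans F, hmem s (h2.trans_le (min_le_right _ _)), fun y => ?_⟩
  show F (A s y) = _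
  rw [hA1 s (h2.trans_le (min_le_left _ _))]
  congr 1
  refine cps_congr ψ ρ (fun i hi => ?_) y
  show (if h : i < k then s ⟨i, h⟩ else 0) = v i
  rw [dif_pos hi]
  rfl

end Pool.Agent.X183.QP
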