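import Pool.Agent.H66.L.T64922ed1.X183.QP.Fam

/-!
# Stable diffeomorphisms have no quasi-periodic tori
-/

set_option autoImplicit false
set_option linter.unusedSectionVars false

open scoped Manifold ContDiff Topology
open Filter Set Metric

universe u

namespace Pool.Agent.X183.QP

open Pool.Agent.H718R2.G Pool.Agent.TH290.CL Pool.Agent.TH80.CLX Pool.Agent.TH80.OMS
open Pool.Agent.X183.PC
open Pool.Agent.Y504.CO (Rec IsHyperbolicPer)
open Pool.Agent.Y318.MN (CritInv IsCrit)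

/-- the composition of the flows `ψ 0, …, ψ (j - 1)` for the times `w i` -/
def mv {N : Type*} (ψ : ℕ → ℝ → N → N) (w : ℕ → ℝ) : ℕ → N → N
  | 0, y => y
  | j + 1, y => ψ j (w j) (mv ψ w j y)

/-- `L` is invariant under `ψ 0, …, ψ (k - 1)` and `f`; on `L` these flows commute with each other
and with `f`. -/
structure Comm {N : Type*} (k : ℕ) (ψ : ℕ → ℝ → N → N) (f : N → N) (L : Set N) : Prop where
  inv : ∀ i < k, ∀ t, ∀ y ∈ L, ψ i t y ∈ L
  comm : ∀ i < k, ∀ j < k, ∀ s t, ∀ y ∈ L, ψ i s (ψ j t y) = ψ j t (ψ i s y)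
  map : ∀ y ∈ L, f y ∈ L
  mcomm : ∀ i < k, ∀ t, ∀ y ∈ L, f (ψ i t y) = ψ i t (f y)

section alg

variable {N : Type*} {k : ℕ} {ψ : ℕ → ℝ → N → N} {f : N → N} {L : Set N} (h : Comm k ψ f L)

theorem mv_congr (ψ : ℕ → ℝ → N → N) {v v' : ℕ → ℝ} {j : ℕ}
    (h : ∀ i < j, v i = v' i) (y : N) : mv ψ v j y = mv ψ v' j y := by
  induction j with
  | zero => rfl
  | succ j ih =>
    show ψ j (v j) (mv ψ v j y) = ψ j (v' j) (mv ψ v' j y)
    rw [ih fun i hi => h i (by omega), h j (by omega)]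

include h

theorem mv_mem (w : ℕ → ℝ) {j : ℕ} (hj : j ≤ k) {y : N} (hy : y ∈ L) : mv ψ w j y ∈ L := by
  induction j with
  | zero => exact hy
  | succ j ih => exact h.inv j (by omega) _ _ (ih (by omega))

theorem mv_flow (w : ℕ → ℝ) {i : ℕ} (hi : i < k) (t : ℝ) {j : ℕ} (hj : j ≤ k) {y : N}
    (hy : y ∈ L) : ψ i t (mv ψ w j y) = mv ψ w j (ψ i t y) := by
  induction j with
  | zero => rfl
  | succ j ih =>
    show ψ i t (ψ j (w j) (mv ψ w j y)) = ψ j (w j) (mv ψ w j (ψ i t y))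
    rw [h.comm i hi j (by omega) _ _ _ (mv_mem h w (by omega) hy), ih (by omega)]

theorem mv_map (w : ℕ → ℝ) {j : ℕ} (hj : j ≤ k) {y : N} (hy : y ∈ L) :
    f (mv ψ w j y) = mv ψ w j (f y) := by
  induction j with
  | zero => rfl
  | succ j ih =>
    show f (ψ j (w j) (mv ψ w j y)) = ψ j (w j) (mv ψ w j (f y))
    rw [h.mcomm j (by omega) _ _ (mv_mem h w (by omega) hy), ih (by omega)]

theorem iter_mem (q : ℕ) {y : N} (hy : y ∈ L) : f^[q] y ∈ L := by
  induction q with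
  | zero => exact hy
  | succ q ih =>
    rw [Function.iterate_succ_apply']
    exact h.map _ ih

theorem mv_iter (w : ℕ → ℝ) {j : ℕ} (hj : j ≤ k) (q : ℕ) {y : N} (hy : y ∈ L) :
    f^[q] (mv ψ w j y) = mv ψ w j (f^[q] y) := by
  induction q with
  | zero => rfl
  | succ q ih =>
    rw [Function.iterate_succ_apply', ih, Function.iterate_succ_apply',
      mv_map h w hj (iter_mem h q hy)]

theorem mv_mv (w w' : ℕ → ℝ) {j j' : ℕ} (hj : j ≤ k) (hj' : j' ≤ k) {y : N} (hy : y ∈ L) :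
    mv ψ w j (mv ψ w' j' y) = mv ψ w' j' (mv ψ w j y) := by
  induction j with
  | zero => rfl
  | succ j ih =>
    show ψ j (w j) (mv ψ w j (mv ψ w' j' y)) = mv ψ w' j' (ψ j (w j) (mv ψ w j y))
    rw [ih (by omega), mv_flow h w' (by omega) _ hj' (mv_mem h w (by omega) hy)]

theorem mv_add (hψ : ∀ i s t y, ψ i (s + t) y = ψ i s (ψ i t y)) (w w' : ℕ → ℝ) {j : ℕ}
    (hj : j ≤ k) {y : N} (hy : y ∈ L) :
    mv ψ (fun i => w i + w' i) j y = mv ψ w j (mv ψ w' j y) := by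
  induction j with
  | zero => rfl
  | succ j ih =>
    show ψ j (w j + w' j) (mv ψ (fun i => w i + w' i) j y) =
      ψ j (w j) (mv ψ w j (ψ j (w' j) (mv ψ w' j y)))
    rw [ih (by omega), hψ, mv_flow h w (by omega) _ (by omega) (mv_mem h w' (by omega) hy)]

omit h in
theorem mv_zero (h0 : ∀ i y, ψ i 0 y = y) (j : ℕ) (y : N) : mv ψ (fun _ => 0) j y = y := by
  induction j with
  | zero => rfl
  | succ j ih =>
    show ψ j 0 (mv ψ (fun _ => 0) j y) = y
    rw [ih, h0]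

theorem mv_neg (h0 : ∀ i y, ψ i 0 y = y) (hψ : ∀ i s t y, ψ i (s + t) y = ψ i s (ψ i t y))
    (w : ℕ → ℝ) {j : ℕ} (hj : j ≤ k) {y : N} (hy : y ∈ L) :
    mv ψ (fun i => -w i) j (mv ψ w j y) = y := by
  rw [← mv_add h hψ _ _ hj hy]
  have : (fun i => -w i + w i) = fun _ => (0 : ℝ) := by
    funext i
    ring
  rw [this, mv_zero h0]

theorem cps_eq {ρ : N → ℝ} (hρ : ∀ y ∈ L, ρ y = 1) (v : ℕ → ℝ) {j : ℕ} (hj : j ≤ k) {y : N}
    (hy : y ∈ L) : cps ψ ρ v j y = mv ψ v j y := by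
  induction j with
  | zero => rfl
  | succ j ih =>
    show ψ j (ρ (cps ψ ρ v j y) * v j) (cps ψ ρ v j y) = ψ j (v j) (mv ψ v j y)
    rw [ih (by omega), hρ _ (mv_mem h v (by omega) hy), one_mul]

omit h in
theorem cps_id (h0 : ∀ i y, ψ i 0 y = y) {ρ : N → ℝ} (v : ℕ → ℝ) (j : ℕ) {y : N}
    (hy : ρ y = 0) : cps ψ ρ v j y = y := by
  induction j with
  | zero => rfl
  | succ j ih =>
    show ψ j (ρ (cps ψ ρ v j y) * v j) (cps ψ ρ v j y) = y
    rw [ih, hy, zero_mul, h0]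

end alg

variable {n : ℕ} {N : Type u} [TopologicalSpace N] [T2Space N] [CompactSpace N]
  [ChartedSpace (V n) N] [IsManifold (𝓡 n) ∞ N]

/-- **No slow drift along commuting flows.** -/
theorem drift {r : ℕ∞} (hr : 1 ≤ r) {F : DiffM n N r} (hF : OmegaStable n N r F)
    {k m : ℕ} (hm : 1 ≤ m) {ψ : ℕ → ℝ → N → N} (hψ : ∀ i, IsFlow n N (ψ i)) {L : Set N}
    (hL : IsCompact L) (hdis : ∀ i, 1 ≤ i → i < m → Disjoint (F^[i] '' L) L)
    (hc : Comm k ψ F^[m] L) :
    ∃ δ : ℝ, 0 < δ ∧ ∀ x ∈ L, ∀ q : ℕ, 1 ≤ q → ∀ w : ℕ → ℝ, (∀ i < k, |w i| ≤ δ * q) →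
      F^[m * q] x = mv ψ w k x → ∀ i < k, ∀ t, ψ i t x = x := by
  rcases L.eq_empty_or_nonempty with hLe | ⟨z, hz⟩
  · exact ⟨1, one_pos, fun x hx => by rw [hLe] at hx; exact absurd hx (notMem_empty x)⟩
  have h0 : ∀ i y, ψ i 0 y = y := fun i => (hψ i).zero
  have hadd : ∀ i s t y, ψ i (s + t) y = ψ i s (ψ i t y) := fun i => (hψ i).add
  have hFc : ∀ i : ℕ, Continuous (F^[i]) := fun i => F.continuous.iterate i
  obtain ⟨C0, hC0⟩ : ∃ C0 : Set N, C0 = ⋃ i ∈ Finset.Ico 1 m, F^[i] '' L := ⟨_, rfl⟩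
  have hC0c : IsClosed C0 := by
    rw [hC0]
    exact isClosed_biUnion_finset fun i _ => (hL.image (hFc i)).isClosed
  have hdisj : Disjoint C0 L := by
    rw [hC0, Set.disjoint_left]
    intro y hy1 hy2
    simp only [mem_iUnion, Finset.mem_Ico] at hy1
    obtain ⟨i, ⟨hi1, hi2⟩, hy⟩ := hy1
    exact Set.disjoint_left.1 (hdis i hi1 hi2) hy hy2
  obtain ⟨f, hf0, hf1, -⟩ := exists_contMDiffMap_zero_one_of_isClosed (n := ⊤) (𝓡 n) hC0c
    hL.isClosed hdisj
  have hρ : ContMDiff (𝓡 n) 𝓘(ℝ, ℝ) ∞ (f : N → ℝ) := f.contMDiff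
  have hf1' : ∀ y ∈ L, f y = 1 := fun y hy => hf1 hy
  obtain ⟨U, hU, hFU, hconj⟩ := id hF
  obtain ⟨κ, hκ, hpert⟩ := perturbK hr F hψ hρ k z U hU hFU
  refine ⟨κ / 2, by positivity, fun x hx q hq w hw hFx => ?_⟩
  have hq0 : (0 : ℝ) < q := by exact_mod_cast hq
  obtain ⟨G, hGU, hG⟩ := hpert (fun i => -w i / q) fun i hi => by
    rw [abs_div, abs_neg, abs_of_pos hq0, div_lt_iff₀ hq0]
    have := hw i hi
    nlinarith
  -- the first return of `G`
  have h1 : ∀ y ∈ L, ∀ i : ℕ, 1 ≤ i → i ≤ m →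
      G^[i] y = F^[i] (mv ψ (fun i => -w i / q) k y) := by
    intro y hy i hi
    induction i with
    | zero => omega
    | succ i ih =>
      intro him
      rcases Nat.eq_zero_or_pos i with h | h
      · subst h
        show G y = F (mv ψ (fun i => -w i / q) k y)
        rw [hG, cps_eq hc hf1' _ le_rfl hy]
      · rw [Function.iterate_succ_apply', ih h (by omega), hG,
          Function.iterate_succ_apply' F]
        have h2 : f (F^[i] (mv ψ (fun i => -w i / q) k y)) = 0 := hf0 (by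
          rw [hC0]
          simp only [mem_iUnion, Finset.mem_Ico]
          exact ⟨i, ⟨h, by omega⟩, _, mv_mem hc _ le_rfl hy, rfl⟩)
        rw [cps_id h0 _ _ h2]
  have h2 : ∀ y ∈ L, G^[m] y = F^[m] (mv ψ (fun i => -w i / q) k y) := fun y hy =>
    h1 y hy m hm le_rfl
  have h3 : ∀ (l : ℕ), ∀ y ∈ L, G^[m * l] y =
      (F^[m])^[l] (mv ψ (fun i => l * (-w i / q)) k y) := by
    intro l
    induction l with
    | zero =>
      intro y hy
      simp only [Nat.cast_zero, zero_mul, mul_zero, Function.iterate_zero, id]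
      rw [mv_zero h0]
    | succ l ih =>
      intro y hy
      rw [Nat.mul_succ, Function.iterate_add_apply, h2 y hy, ih _ (hc.map _ (mv_mem hc _ le_rfl hy)),
        Function.iterate_succ_apply, mv_map hc (fun i => -w i / q) le_rfl hy,
        ← mv_add hc hadd _ _ le_rfl (hc.map _ hy), mv_map hc _ le_rfl hy]
      congr 1
      refine mv_congr ψ (fun i _ => ?_) _
      push_cast
      ring
  have hGs : OmegaStable n N r G :=
    ⟨U, hU, hGU, fun G' hG' => omegaConj_trans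
      (omegaConj_symm F.continuous (hconj G hGU)) (hconj G' hG')⟩
  have hmq : 1 ≤ m * q := Nat.mul_pos hm hq
  have h4 : ∀ y ∈ L, G^[m * q] y = mv ψ (fun i => -w i) k ((F^[m])^[q] y) := by
    intro y hy
    rw [h3 q y hy, mv_iter hc _ le_rfl q hy]
    refine mv_congr ψ (fun i _ => ?_) _
    field_simp
  have hFx' : (F^[m])^[q] x = mv ψ w k x := by
    rw [← Function.iterate_mul]
    exact hFx
  have h5 : ∀ i < k, ∀ t, G^[m * q] (ψ i t x) = ψ i t x := by
    intro i hi t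
    have h6 : (F^[m])^[q] (ψ i t x) = ψ i t ((F^[m])^[q] x) := by
      have : ∀ l : ℕ, (F^[m])^[l] (ψ i t x) = ψ i t ((F^[m])^[l] x) := by
        intro l
        induction l with
        | zero => rfl
        | succ l ih =>
          rw [Function.iterate_succ_apply', ih, Function.iterate_succ_apply',
            hc.mcomm i hi _ _ (iter_mem hc l hx)]
      exact this q
    rw [h4 _ (hc.inv i hi t x hx), h6, hFx', mv_flow hc w hi t le_rfl hx,
      mv_neg hc h0 hadd w le_rfl (hc.inv i hi t x hx)]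
  intro i hi
  by_contra hcon
  push Not at hcon
  have hG0 : G^[m * q] x = x := by
    have := h5 i hi 0
    rwa [h0] at this
  have hyp := Pool.Agent.Y504.CO.Gen.stable_hyp hr hGs x ⟨m * q, hmq, hG0⟩
  have := not_hyp (hψ i) G hcon hmq continuous_id (fun s => h5 i hi s) (s₁ := 0) rfl
    (Or.inl fun s => le_rfl)
  rw [h0] at this
  exact this hyp

end Pool.Agent.X183.QP
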