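import Pool.Agent.H66.L.T64922ed1.X183.QP.Main

/-!
# Stable diffeomorphisms have no quasi-periodic tori: compact orbits
-/

set_option autoImplicit false
set_option linter.unusedSectionVars false

open scoped Manifold ContDiff Topology
open Filter Set Metric

universe u

namespace Pool.Agent.X183.QP

open Pool.Agent.H718R2.G Pool.Agent.TH290.CL Pool.Agent.TH80.CLX Pool.Agent.TH80.OMS
open Pool.Agent.X183.PC
open Pool.Agent.Y504.CO (Rec IsHyperbolicPer)
open Pool.Agent.Y318.MN (CritInv IsCrit)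

/-- `L` is a quasi-periodic torus of `F`: a compact orbit with more than one point of smooth flows
`ψ 0, …, ψ (k - 1)` of `N` which commute on `L`, periodic under `F` (`F^m(L) ⊆ L` and `F^i(L)` does
not meet `L` for `0 < i < m`), such that `F^m` commutes with the flows on `L`, that is, acts on `L`
as a translation. -/
def IsQPTorus (n : ℕ) (N : Type u) [TopologicalSpace N] [ChartedSpace (V n) N] (F : N → N)
    (L : Set N) : Prop :=
  ∃ (k : ℕ) (ψ : ℕ → ℝ → N → N) (m : ℕ), (∀ i, IsFlow n N (ψ i)) ∧ IsCompact L ∧ L.Nontrivial ∧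
    (∀ y ∈ L, ∀ z ∈ L, ∃ w, mv ψ w k y = z) ∧
    1 ≤ m ∧ (∀ i, 1 ≤ i → i < m → Disjoint (F^[i] '' L) L) ∧ Comm k ψ F^[m] L

/-- the points on quasi-periodic tori of `F` -/
def TorusPts (n : ℕ) {N : Type u} [TopologicalSpace N] [ChartedSpace (V n) N] (F : N → N) :
    Set N :=
  {x | ∃ L : Set N, IsQPTorus n N F L ∧ x ∈ L}

/-- `G` does not decrease some smooth function `h`, and all recurrent points of `G` whose whole
orbit consists of critical points of `h`, with at most countably many exceptions, are periodic, or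
lie on periodic smooth closed curves or on quasi-periodic tori. -/
def TorusRec (n : ℕ) (N : Type u) [TopologicalSpace N] [ChartedSpace (V n) N] (r : ℕ∞)
    (G : DiffM n N r) : Prop :=
  ∃ h : N → ℝ, ContMDiff (𝓡 n) 𝓘(ℝ, ℝ) ∞ h ∧ (∀ x, h x ≤ h (G x)) ∧
    ((CritInv n G h ∩ Rec G) \ (Per G ∪ CurvePts n G ∪ TorusPts n G)).Countable

variable {n : ℕ} {N : Type u} [TopologicalSpace N] [T2Space N] [CompactSpace N]
  [ChartedSpace (V n) N] [IsManifold (𝓡 n) ∞ N]

theorem mv_cont_w {ψ : ℕ → ℝ → N → N} (hψ : ∀ i, IsFlow n N (ψ i)) (x : N) (j : ℕ) :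
    Continuous fun w : ℕ → ℝ => mv ψ w j x := by
  induction j with
  | zero => exact continuous_const
  | succ j ih =>
    exact (hψ j).smooth.continuous.comp ((continuous_apply j).prodMk ih)

theorem mv_cont_y {ψ : ℕ → ℝ → N → N} (hψ : ∀ i, IsFlow n N (ψ i)) (w : ℕ → ℝ) (j : ℕ) :
    Continuous fun y : N => mv ψ w j y := by
  induction j with
  | zero => exact continuous_id
  | succ j ih =>
    exact (hψ j).smooth.continuous.comp (continuous_const.prodMk ih)

theorem trunc_bound (k : ℕ) (w : ℕ → ℝ) {i : ℕ} (hi : i < k) :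
    |w i| ≤ ∑ l ∈ Finset.range k, |w l| :=
  Finset.single_le_sum (f := fun l => |w l|) (fun _ _ => abs_nonneg _) (Finset.mem_range.2 hi)

theorem bounded {k : ℕ} {ψ : ℕ → ℝ → N → N} (hψ : ∀ i, IsFlow n N (ψ i)) {f : N → N} {L : Set N}
    (hL : IsCompact L) (hc : Comm k ψ f L) (htr : ∀ y ∈ L, ∀ z ∈ L, ∃ w, mv ψ w k y = z) {x : N}
    (hx : x ∈ L) :
    ∃ R : ℝ, ∀ z ∈ L, ∃ w : ℕ → ℝ, (∀ i < k, |w i| ≤ R) ∧ mv ψ w k x = z := by
  have h0 : ∀ i y, ψ i 0 y = y := fun i => (hψ i).zero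
  have hadd : ∀ i s t y, ψ i (s + t) y = ψ i s (ψ i t y) := fun i => (hψ i).add
  set K : ℕ → Set N := fun j =>
    (fun w : ℕ → ℝ => mv ψ w k x) '' (Set.pi univ fun _ => Icc (-(j : ℝ)) j) with hK
  have hKc : ∀ j, IsClosed (K j) := fun j =>
    ((isCompact_univ_pi fun _ => isCompact_Icc).image (mv_cont_w hψ x k)).isClosed
  have : CompactSpace L := isCompact_iff_compactSpace.1 hL
  have : Nonempty L := ⟨⟨x, hx⟩⟩
  obtain ⟨j, ⟨y0, hy0⟩⟩ := nonempty_interior_of_iUnion_of_closed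
    (f := fun j : ℕ => (Subtype.val ⁻¹' K j : Set L))
    (fun j => (hKc j).preimage continuous_subtype_val) (by
      rw [eq_univ_iff_forall]
      rintro ⟨z, hz⟩
      obtain ⟨w, hw⟩ := htr x hx z hz
      obtain ⟨j, hj⟩ := exists_nat_ge (∑ l ∈ Finset.range k, |w l|)
      refine mem_iUnion.2 ⟨j, fun i => if i < k then w i else 0, ?_, ?_⟩
      · intro i _
        show (if i < k then w i else 0) ∈ Icc (-(j : ℝ)) j
        rw [mem_Icc, ← abs_le]
        split_ifs with hi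
        · exact (trunc_bound k w hi).trans hj
        · rw [abs_zero]
          exact Nat.cast_nonneg _
      · show mv ψ (fun i => if i < k then w i else 0) k x = z
        rw [← hw]
        refine mv_congr ψ (fun i hi => ?_) x
        show (if i < k then w i else 0) = w i
        rw [if_pos hi])
  obtain ⟨O, hO, hOK⟩ := (mem_nhds_subtype L y0 _).1 (mem_interior_iff_mem_nhds.1 hy0)
  have hOK' : ∀ y ∈ O, y ∈ L → y ∈ K j := fun y hy hyL => @hOK ⟨y, hyL⟩ hy
  have key : ∃ R : ℝ, ∀ z ∈ L, z ∈ L → ∃ w : ℕ → ℝ, (∀ i < k, |w i| ≤ R) ∧ mv ψ w k x = z := by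
    refine hL.induction_on (p := fun S : Set N => ∃ R : ℝ, ∀ z ∈ S, z ∈ L →
      ∃ w : ℕ → ℝ, (∀ i < k, |w i| ≤ R) ∧ mv ψ w k x = z) ?_ ?_ ?_ ?_
    · exact ⟨0, fun z hz => absurd hz (notMem_empty z)⟩
    · rintro S S' hSS ⟨R, hR⟩
      exact ⟨R, fun z hz => hR z (hSS hz)⟩
    · rintro S S' ⟨R, hR⟩ ⟨R', hR'⟩
      refine ⟨max R R', ?_⟩
      rintro z (hz | hz) hzL
      · obtain ⟨w, h1, h2⟩ := hR z hz hzL
        exact ⟨w, fun i hi => (h1 i hi).trans (le_max_left _ _), h2⟩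
      · obtain ⟨w, h1, h2⟩ := hR' z hz hzL
        exact ⟨w, fun i hi => (h1 i hi).trans (le_max_right _ _), h2⟩
    · intro z hz
      obtain ⟨u, hu⟩ := htr y0 y0.2 z hz
      have e1 : mv ψ (fun i => -u i) k z = y0 := by
        rw [← hu]
        exact mv_neg hc h0 hadd u le_rfl y0.2
      refine ⟨{z' | mv ψ (fun i => -u i) k z' ∈ O}, ?_, (∑ l ∈ Finset.range k, |u l|) + j, ?_⟩
      · apply mem_nhdsWithin_of_mem_nhds
        exact (mv_cont_y hψ (fun i => -u i) k).continuousAt.preimage_mem_nhds (by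
          show O ∈ 𝓝 (mv ψ (fun i => -u i) k z)
          rw [e1]
          exact hO)
      · intro z' hz' hz'L
        obtain ⟨w, hw, hwx⟩ := hOK' _ hz' (mv_mem hc _ le_rfl hz'L)
        refine ⟨fun i => u i + w i, fun i hi => ?_, ?_⟩
        · have h1 := trunc_bound k u hi
          have h2 : |w i| ≤ j := abs_le.2 (hw i (mem_univ _))
          exact (abs_add_le _ _).trans (add_le_add h1 h2)
        · rw [mv_add hc hadd _ _ le_rfl hx]
          have h3 : mv ψ w k x = mv ψ (fun i => -u i) k z' := hwx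
          rw [h3]
          have h4 := mv_neg hc h0 hadd (fun i => -u i) le_rfl hz'L
          simpa using h4
  obtain ⟨R, hR⟩ := key
  exact ⟨R, fun z hz => hR z hz hz⟩

theorem mv_fixed {ψ : ℕ → ℝ → N → N} {x : N} {k : ℕ} (h : ∀ i < k, ∀ t, ψ i t x = x)
    (w : ℕ → ℝ) {j : ℕ} (hj : j ≤ k) : mv ψ w j x = x := by
  induction j with
  | zero => rfl
  | succ j ih =>
    show ψ j (w j) (mv ψ w j x) = x
    rw [ih (by omega), h j (by omega)]

/-- **No quasi-periodic tori.** -/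
theorem no_torus {r : ℕ∞} (hr : 1 ≤ r) {F : DiffM n N r} (hF : OmegaStable n N r F) {L : Set N}
    (h : IsQPTorus n N F L) : False := by
  obtain ⟨k, ψ, m, hψ, hL, hnt, htr, hm, hdis, hc⟩ := h
  obtain ⟨x, hx, y, hy, hxy⟩ := hnt
  obtain ⟨δ, hδ, hdr⟩ := drift hr hF hm hψ hL hdis hc
  obtain ⟨R, hR⟩ := bounded hψ hL hc htr hx
  obtain ⟨q, hq⟩ := exists_nat_ge (R / δ)
  have hq1 : R ≤ δ * ((q + 1 : ℕ) : ℝ) := by
    rw [div_le_iff₀ hδ] at hq
    push_cast
    nlinarith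
  obtain ⟨w, hw, hwx⟩ := hR ((F^[m])^[q + 1] x) (iter_mem hc _ hx)
  have h1 := hdr x hx (q + 1) (by omega) w (fun i hi => (hw i hi).trans hq1) (by
    rw [Function.iterate_mul]
    exact hwx.symm)
  obtain ⟨u, hu⟩ := htr x hx y hy
  rw [mv_fixed h1 u le_rfl] at hu
  exact hxy hu

/-- **Limits of diffeomorphisms whose recurrence is carried by closed curves and tori.** -/
theorem limit_torus {r : ℕ∞} (hr : 1 ≤ r) {F : DiffM n N r} (hF : OmegaStable n N r F)
    (hcl : ∀ U : Set (DiffM n N r), IsOpen[strongTop n N r] U → F ∈ U →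
      ∃ G ∈ U, TorusRec n N r G) :
    FiniteNoCycle F ∧ ∀ p ∈ Omega F, IsHyperbolicPer n F p := by
  obtain ⟨U₀, hU₀, hFU₀, hconj⟩ := id hF
  refine limit_main hr hF fun U hU hFU => ?_
  obtain ⟨G, ⟨hGU, hGU₀⟩, h, hh, hm, hR⟩ := hcl (U ∩ U₀)
    (@IsOpen.inter _ (strongTop n N r) _ _ hU hU₀) ⟨hFU, hFU₀⟩
  have hGF : OmegaConj G F := omegaConj_symm F.continuous (hconj G hGU₀)
  have hGs : OmegaStable n N r G :=
    ⟨U₀, hU₀, hGU₀, fun G' hG' => omegaConj_trans hGF (hconj G' hG')⟩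
  refine ⟨G, hGU, h, hh, hm, hR.mono ?_⟩
  rintro x ⟨hx, hx'⟩
  refine ⟨hx, ?_⟩
  rintro (h1 | ⟨L, hL, -⟩)
  · exact hx' h1
  · exact no_torus hr hGs hL

end Pool.Agent.X183.QP
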